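import Pool.Agent.H4.TA.Targets2
import Pool.Agent.H89.TAS.BNM

/-!
# tas_modules, row BN2: the mean of `1 / ((n + 1) (n + 2))` over all sequences of directions
-/

set_option autoImplicit false

open Finset Filter Topology Pool.Agent.H43.TC Pool.Agent.H4.TA

namespace Pool.Agent.H86.TAS.BN2

open Pool.Agent.H89.TAS (bnm_dn pf_BNM)

/-- insertion of one letter -/
theorem sum_ins {k j : ℕ} (l : Fin (j + 1)) (a : Fin k) (G : ℕ → ℝ) :
    ∑ d : Fin j → Fin k, G (dn d a + 1) =
      ∑ d' : Fin (j + 1) → Fin k, if d' l = a then G (dn d' a) else 0 := by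
  rw [← (Fin.insertNthEquiv (fun _ : Fin (j + 1) => Fin k) l).sum_comp, Fintype.sum_prod_type]
  rw [Finset.sum_eq_single a]
  · apply Finset.sum_congr rfl
    intro d _
    rw [if_pos (by simp [Fin.insertNthEquiv])]
    have h := bnm_dn l a d
    have h2 : (Fin.insertNthEquiv (fun _ : Fin (j + 1) => Fin k) l) (a, d) =
        Fin.insertNth (α := fun _ => Fin k) l a d := rfl
    rw [h2, h]
  · intro x _ hx
    apply Finset.sum_eq_zero
    intro d _
    rw [if_neg]
    have h2 : (Fin.insertNthEquiv (fun _ : Fin (j + 1) => Fin k) l) (x, d) =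
        Fin.insertNth (α := fun _ => Fin k) l x d := rfl
    rw [h2, Fin.insertNth_apply_same]
    exact hx
  · intro h
    exact absurd (Finset.mem_univ a) h

theorem pf_BN2 : T_BN2 := by
  intro k j a
  have hj : (0 : ℝ) < (j : ℝ) + 1 := by positivity
  have hj2 : (0 : ℝ) < (j : ℝ) + 2 := by positivity
  set G : ℕ → ℝ := fun n => 1 / ((n : ℝ) * ((n : ℝ) + 1)) with hG
  have h0 : ∑ d : Fin j → Fin k, 1 / (((dn d a : ℝ) + 1) * ((dn d a : ℝ) + 2)) =
      ∑ d : Fin j → Fin k, G (dn d a + 1) := by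
    refine Finset.sum_congr rfl fun d _ => ?_
    rw [hG]
    push_cast
    ring
  have h1 : ((j : ℝ) + 1) * ∑ d : Fin j → Fin k, G (dn d a + 1) =
      ∑ l : Fin (j + 1), ∑ d' : Fin (j + 1) → Fin k,
        if d' l = a then G (dn d' a) else 0 := by
    rw [Finset.sum_congr rfl fun l _ => (sum_ins l a G).symm, Finset.sum_const, Finset.card_univ,
      Fintype.card_fin, nsmul_eq_mul]
    push_cast
    rfl
  have h2 : ∀ d' : Fin (j + 1) → Fin k,
      ∑ l : Fin (j + 1), (if d' l = a then G (dn d' a) else 0) ≤ 1 / ((dn d' a : ℝ) + 1) := by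
    intro d'
    rw [← Finset.sum_filter, Finset.sum_const, nsmul_eq_mul]
    change (dn d' a : ℝ) * (1 / ((dn d' a : ℝ) * ((dn d' a : ℝ) + 1))) ≤ 1 / ((dn d' a : ℝ) + 1)
    rcases Nat.eq_zero_or_pos (dn d' a) with h | h
    · rw [h]
      simp
    · have h3 : (0 : ℝ) < (dn d' a : ℝ) := by exact_mod_cast h
      apply le_of_eq
      field_simp
  have h3 := pf_BNM k (j + 1) a
  have h4 : ((j : ℝ) + 1) * ∑ d : Fin j → Fin k, G (dn d a + 1) ≤
      (k : ℝ) ^ (j + 2) / ((j : ℝ) + 2) := by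
    rw [h1, Finset.sum_comm]
    refine (Finset.sum_le_sum fun d' _ => h2 d').trans (h3.trans (le_of_eq ?_))
    push_cast
    ring
  rw [h0, le_div_iff₀ (by positivity)]
  rw [le_div_iff₀ hj2] at h4
  linarith

end Pool.Agent.H86.TAS.BN2
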