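import Pool.Agent.H4.TA.Targets2

/-!
# tas_modules, row TRS: the walk is transient in dimension at least three
-/

set_option autoImplicit false

open Finset Filter Topology Pool.Agent.H43.TC Pool.Agent.H4.TA

namespace Pool.Agent.H86.TAS.TRS

theorem pf_TRS (hPL3 : T_PL3) (hRNW : T_RNW) (hQGL : T_QGL) : T_TRS := by
  intro k hk
  have hR := hRNW k (by omega)
  obtain ⟨-, hq⟩ := hQGL k (pp k) (qq k) hR
  -- the sum of the return probabilities
  have hs : Summable fun j : ℕ => 2 * (k : ℝ) ^ 2 * ((j : ℝ) + 1) ^ (-(3 / 2) : ℝ) := by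
    refine Summable.mul_left _ ?_
    have h1 : Summable fun j : ℕ => ((j : ℝ)) ^ (-(3 / 2) : ℝ) :=
      Real.summable_nat_rpow.mpr (by norm_num)
    have h2 := (summable_nat_add_iff 1).mpr h1
    simpa using h2
  set G : ℝ := ∑' j : ℕ, 2 * (k : ℝ) ^ 2 * ((j : ℝ) + 1) ^ (-(3 / 2) : ℝ) with hG
  have hnn : ∀ j : ℕ, 0 ≤ 2 * (k : ℝ) ^ 2 * ((j : ℝ) + 1) ^ (-(3 / 2) : ℝ) := fun j => by
    positivity
  have hsum : ∀ N : ℕ, ∑ j ∈ range N, pp k j ≤ G := by
    intro N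
    refine (Finset.sum_le_sum fun j _ => hPL3 k j hk).trans ?_
    exact hs.sum_le_tsum _ fun j _ => hnn j
  have hG1 : 1 ≤ G := by
    have h3 := hsum 1
    rw [Finset.sum_range_one, hR.p0] at h3
    exact h3
  have hk0 : (3 : ℝ) ≤ k := by exact_mod_cast hk
  have hlow : ∀ n : ℕ, 1 ≤ n → 1 / (2 * G) ≤ qq k n := by
    intro n hn
    have h4 := hq (2 * k + 2) n (by omega) hn
    have h5 : (1 : ℝ) / 2 ≤ 1 - (k : ℝ) / (((2 * k + 2 : ℕ) : ℝ) - 1) := by
      have h6 : (k : ℝ) / (((2 * k + 2 : ℕ) : ℝ) - 1) ≤ 1 / 2 := by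
        push_cast
        rw [div_le_div_iff₀ (by linarith) (by norm_num)]
        linarith
      linarith
    have h7 : qq k n * ∑ j ∈ range ((2 * k + 2) * n + 1), pp k j ≤ qq k n * G :=
      mul_le_mul_of_nonneg_left (hsum _) (hR.qn n)
    have h8 : (1 : ℝ) / 2 ≤ qq k n * G := h5.trans (h4.trans h7)
    rw [div_le_iff₀ (by positivity)]
    linarith
  have hbdd : BddBelow (Set.range (qq k)) := ⟨0, by
    rintro _ ⟨n, rfl⟩
    exact hR.qn n⟩
  have htend := tendsto_atTop_ciInf hR.qa hbdd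
  refine ⟨⨅ n, qq k n, ?_, htend⟩
  have h9 : 1 / (2 * G) ≤ ⨅ n, qq k n := by
    refine ge_of_tendsto htend ?_
    filter_upwards [eventually_ge_atTop 1] with n hn
    exact hlow n hn
  have h10 : 0 < 1 / (2 * G) := by positivity
  linarith

end Pool.Agent.H86.TAS.TRS
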